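import Pool.Agent.H1.LP.Targets

/-!
# SETH for linear programs: module ABST (helper4)
-/

namespace Pool.Agent.H4.LP

open Finset Pool.Agent.H1.LP

theorem abst_one {X : Type} (H : X → ℝ) (et si de : ℝ) (m : ℕ) (S : Finset X)
    (r : ℕ) (s : Fin r → X → ℝ) (lam : Fin r → ℝ) (lam0 : ℝ) (ls : Fin m → X → ℝ) (N : ℝ)
    (hN : 0 < N) (het : 0 ≤ et) (hsi : 0 ≤ si) (hde : 0 < de)
    (hs : ∀ i, ∀ x ∈ S, 0 ≤ s i x) (hl : ∀ i, 0 ≤ lam i) (hl0 : 0 ≤ lam0)
    (hls : ∀ a, ∀ x ∈ S, |ls a x| ≤ 1)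
    (hid : ∀ x ∈ S, ∑ a, ls a x - de = lam0 + ∑ i, lam i * s i x)
    (hH : ∀ i, ∀ c : ℝ, (∀ x ∈ S, s i x ≤ c) → 0 ≤ c →
      -(et * ∑ x ∈ S, s i x + si * N * c) ≤ ∑ x ∈ S, H x * s i x)
    (hH0 : -(et * S.card + si * N) ≤ ∑ x ∈ S, H x)
    (hHl : ∀ a, ∑ x ∈ S, H x * ls a x ≤ et * ∑ x ∈ S, |ls a x| + 2 * si * N) :
    de * ∑ x ∈ S, H x ≤ 2 * et * m * S.card + 3 * si * N * m * (r + 1) := by
  rcases S.eq_empty_or_nonempty with rfl | ⟨x0, hx0⟩
  · simp only [sum_empty, mul_zero, card_empty, Nat.cast_zero, zero_add]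
    positivity
  have hsum_le : ∀ x ∈ S, ∑ a, ls a x ≤ m := by
    intro x hx
    calc ∑ a, ls a x ≤ ∑ a : Fin m, (1 : ℝ) := sum_le_sum fun a _ => (abs_le.1 (hls a x hx)).2
      _ = m := by simp
  have hnn : ∀ x ∈ S, 0 ≤ ∑ i, lam i * s i x :=
    fun x hx => sum_nonneg fun i _ => mul_nonneg (hl i) (hs i x hx)
  have hl0m : lam0 ≤ m := by
    have h1 := hid x0 hx0
    have h2 := hnn x0 hx0
    have h3 := hsum_le x0 hx0
    linarith
  have hlim : ∀ i, ∀ x ∈ S, lam i * s i x ≤ m := by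
    intro i x hx
    have h1 := hid x hx
    have h2 : lam i * s i x ≤ ∑ i, lam i * s i x :=
      single_le_sum (f := fun i => lam i * s i x)
        (fun i _ => mul_nonneg (hl i) (hs i x hx)) (mem_univ i)
    have h3 := hsum_le x hx
    linarith
  have hR : ∀ i, -(et * (lam i * ∑ x ∈ S, s i x) + si * N * m) ≤
      lam i * ∑ x ∈ S, H x * s i x := by
    intro i
    rcases (hl i).eq_or_lt with h | h
    · rw [← h]
      simp only [zero_mul, mul_zero, zero_add, Left.neg_nonpos_iff]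
      positivity
    · have h1 := hH i (m / lam i) (fun x hx => by
        rw [le_div_iff₀ h]
        linarith [hlim i x hx, mul_comm (s i x) (lam i)]) (by positivity)
      have h2 := mul_le_mul_of_nonneg_left h1 h.le
      have h3 : lam i * -(et * ∑ x ∈ S, s i x + si * N * (m / lam i)) =
          -(et * (lam i * ∑ x ∈ S, s i x) + si * N * m) := by
        field_simp
      linarith
  have hR0 : -(et * (lam0 * S.card) + si * N * m) ≤ lam0 * ∑ x ∈ S, H x := by
    have h2 := mul_le_mul_of_nonneg_left hH0 hl0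
    have h3 : lam0 * (si * N) ≤ m * (si * N) := mul_le_mul_of_nonneg_right hl0m (by positivity)
    linarith
  -- the identity weighted by H
  have hw : ∑ x ∈ S, H x * (∑ a, ls a x - de) =
      ∑ x ∈ S, H x * (lam0 + ∑ i, lam i * s i x) :=
    sum_congr rfl fun x hx => by rw [hid x hx]
  have hwL : ∑ x ∈ S, H x * (∑ a, ls a x - de) =
      ∑ a, ∑ x ∈ S, H x * ls a x - de * ∑ x ∈ S, H x := by
    rw [sum_comm, mul_sum, ← sum_sub_distrib]
    refine sum_congr rfl fun x _ => ?_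
    rw [mul_sub, mul_sum]
    ring
  have hwR : ∑ x ∈ S, H x * (lam0 + ∑ i, lam i * s i x) =
      lam0 * ∑ x ∈ S, H x + ∑ i, lam i * ∑ x ∈ S, H x * s i x := by
    have h1 : ∑ i, lam i * ∑ x ∈ S, H x * s i x = ∑ x ∈ S, ∑ i, lam i * (H x * s i x) := by
      rw [sum_comm]
      exact sum_congr rfl fun i _ => mul_sum _ _ _
    rw [h1, mul_sum, ← sum_add_distrib]
    refine sum_congr rfl fun x _ => ?_
    rw [mul_add, mul_sum]
    congr 1
    · ring
    · exact sum_congr rfl fun i _ => by ring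
  -- the total mass of the certificate
  have hm : lam0 * S.card + ∑ i, lam i * ∑ x ∈ S, s i x ≤ m * S.card := by
    have h1 : ∑ i, lam i * ∑ x ∈ S, s i x = ∑ x ∈ S, ∑ i, lam i * s i x := by
      rw [sum_comm]
      exact sum_congr rfl fun i _ => mul_sum _ _ _
    have h2 : lam0 * S.card = ∑ x ∈ S, lam0 := by simp [mul_comm]
    have h3 : (m : ℝ) * S.card = ∑ x ∈ S, (m : ℝ) := by simp [mul_comm]
    rw [h1, h2, h3, ← sum_add_distrib]
    refine sum_le_sum fun x hx => ?_
    rw [← hid x hx]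
    linarith [hsum_le x hx]
  have hRs : -(et * ∑ i, lam i * ∑ x ∈ S, s i x + r * (si * N * m)) ≤
      ∑ i, lam i * ∑ x ∈ S, H x * s i x := by
    have h1 : -(et * ∑ i, lam i * ∑ x ∈ S, s i x + r * (si * N * m)) =
        ∑ i, -(et * (lam i * ∑ x ∈ S, s i x) + si * N * m) := by
      rw [sum_neg_distrib, sum_add_distrib, ← mul_sum]
      simp
    rw [h1]
    exact sum_le_sum fun i _ => hR i
  have hL : ∑ a, ∑ x ∈ S, H x * ls a x ≤ et * (m * S.card) + 2 * si * N * m := by
    calc ∑ a, ∑ x ∈ S, H x * ls a x ≤ ∑ a : Fin m, (et * (S.card : ℝ) + 2 * si * N) := by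
          refine sum_le_sum fun a _ => ?_
          have h1 := hHl a
          have h2 : ∑ x ∈ S, |ls a x| ≤ S.card := by
            calc ∑ x ∈ S, |ls a x| ≤ ∑ x ∈ S, (1 : ℝ) := sum_le_sum fun x hx => hls a x hx
              _ = S.card := by simp
          have h3 := mul_le_mul_of_nonneg_left h2 het
          linarith
      _ = et * (m * S.card) + 2 * si * N * m := by
          simp only [sum_const, card_univ, Fintype.card_fin, nsmul_eq_mul]
          ring
  have hmet := mul_le_mul_of_nonneg_left hm het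
  have hr : 0 ≤ si * N * m * r := by positivity
  rw [hwL, hwR] at hw
  nlinarith

theorem abst : S_ABST := by
  intro X _ _ H et si de m ι J S r s lam lam0 ls het hsi hde hdisj hcov hs hl hl0 hls hid hH hH0
    hHl hHt hN
  classical
  have hN' : (0 : ℝ) < Fintype.card X := by exact_mod_cast hN
  have h1 : ∀ j ∈ J, de * ∑ x ∈ S j, H x ≤ 2 * et * m * (S j).card +
      3 * si * Fintype.card X * m * ((r j : ℝ) + 1) := fun j hj =>
    abst_one H et si de m (S j) (r j) (s j) (lam j) (lam0 j) (ls j) (Fintype.card X) hN' het hsi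
      hde (hs j hj) (hl j hj) (hl0 j hj) (hls j hj) (hid j hj) (hH j hj) (hH0 j hj) (hHl j hj)
  have hU : J.biUnion S = univ := by
    ext x
    simpa using hcov x
  have hpd : ((J : Set ι)).PairwiseDisjoint S := by
    intro j hj j' hj' hne
    exact hdisj j hj j' hj' hne
  have h2 : ∑ x, H x = ∑ j ∈ J, ∑ x ∈ S j, H x := by
    rw [← hU, sum_biUnion hpd]
  have h3 : (Fintype.card X : ℝ) = ∑ j ∈ J, ((S j).card : ℝ) := by
    have : (univ : Finset X).card = ∑ j ∈ J, (S j).card := by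
      rw [← hU, card_biUnion]
      exact fun j hj j' hj' hne => hdisj j hj j' hj' hne
    rw [← card_univ, this]
    push_cast
    rfl
  have h4 : de * ∑ x, H x ≤ 2 * et * m * Fintype.card X +
      3 * si * Fintype.card X * m * ∑ j ∈ J, ((r j : ℝ) + 1) := by
    calc de * ∑ x, H x = ∑ j ∈ J, de * ∑ x ∈ S j, H x := by rw [h2, mul_sum]
      _ ≤ ∑ j ∈ J, (2 * et * m * (S j).card +
          3 * si * Fintype.card X * m * ((r j : ℝ) + 1)) := sum_le_sum h1
      _ = 2 * et * m * ∑ j ∈ J, ((S j).card : ℝ) +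
          3 * si * Fintype.card X * m * ∑ j ∈ J, ((r j : ℝ) + 1) := by
          rw [sum_add_distrib, ← mul_sum, ← mul_sum]
      _ = _ := by rw [← h3]
  have h5 := mul_le_mul_of_nonneg_left hHt hde.le
  have h6 : (Fintype.card X : ℝ) * de ≤ (Fintype.card X : ℝ) *
      (8 * m * et + 12 * m * si * ∑ j ∈ J, ((r j : ℝ) + 1)) := by
    linarith
  exact le_of_mul_le_mul_left h6 hN'

end Pool.Agent.H4.LP
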