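import Pool.Agent.H1.LP.Targets

/-!
# SETH for linear programs: module AVG (helper4)
-/

namespace Pool.Agent.H4.LP

open Finset Pool.Agent.H1.LP

/-- sum with a dilated character -/
noncomputable def Fd {p B : ℕ} [NeZero p] {Q : Type} [Fintype Q] [DecidableEq Q]
    (V : (Fin B → Q) → ℝ) (l : Fin B → ZMod p) (al : Fin B → Q → ZMod p) (c : ZMod p) : ℂ :=
  ∑ x, (V x : ℂ) * ZMod.stdAddChar (c * ip l (val al x))

theorem Fd_one {p B : ℕ} [NeZero p] {Q : Type} [Fintype Q] [DecidableEq Q]
    (V : (Fin B → Q) → ℝ) (l : Fin B → ZMod p) (al : Fin B → Q → ZMod p) :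
    Fd V l al 1 = FS V l al := by
  simp [Fd, FS]

theorem Fd_neg_one {p B : ℕ} [NeZero p] {Q : Type} [Fintype Q] [DecidableEq Q]
    (V : (Fin B → Q) → ℝ) (l : Fin B → ZMod p) (al : Fin B → Q → ZMod p) :
    Fd V l al (-1) = (starRingEnd ℂ) (FS V l al) := by
  simp only [Fd, FS, map_sum, map_mul, Complex.conj_ofReal, neg_mul, one_mul]
  refine sum_congr rfl fun x _ => ?_
  rw [AddChar.map_neg_eq_conj]

theorem pow_eq {p B : ℕ} [NeZero p] {Q : Type} [Fintype Q] [DecidableEq Q] (s : ℕ)
    (V : (Fin B → Q) → ℝ) (l : Fin B → ZMod p) (al : Fin B → Q → ZMod p) :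
    ((‖FS V l al‖ ^ (2 * s) : ℝ) : ℂ) =
      ∏ r : Fin (2 * s), Fd V l al (if r.val < s then 1 else -1) := by
  have h1 : ∀ r : Fin (2 * s), Fd V l al (if r.val < s then 1 else -1) =
      if r.val < s then FS V l al else (starRingEnd ℂ) (FS V l al) := by
    intro r
    split_ifs
    · exact Fd_one V l al
    · exact Fd_neg_one V l al
  have hc1 : (univ.filter fun r : Fin (2 * s) => r.val < s).card = s := by
    rw [Fin.card_filter_val_lt]
    omega
  have hc2 : (univ.filter fun r : Fin (2 * s) => ¬ r.val < s).card = s := by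
    have := card_filter_add_card_filter_not (s := (univ : Finset (Fin (2 * s))))
      (fun r => r.val < s)
    rw [hc1] at this
    simp only [card_univ, Fintype.card_fin] at this
    omega
  rw [prod_congr rfl fun r _ => h1 r, prod_ite, prod_const, prod_const, hc1, hc2, ← mul_pow,
    Complex.mul_conj, Complex.normSq_eq_norm_sq, pow_mul]
  push_cast
  rfl

theorem char_sum {p : ℕ} [NeZero p] {ι : Type} (t : Finset ι) (f : ι → ZMod p) :
    (ZMod.stdAddChar (∑ i ∈ t, f i) : ℂ) = ∏ i ∈ t, ZMod.stdAddChar (f i) := by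
  classical
  induction t using Finset.induction_on with
  | empty => simp
  | insert a t ha ih => rw [sum_insert ha, prod_insert ha, AddChar.map_add_eq_mul, ih]

theorem expand {p B : ℕ} [NeZero p] {Q : Type} [Fintype Q] [DecidableEq Q] (s : ℕ)
    (V : (Fin B → Q) → ℝ) (l : Fin B → ZMod p) (al : Fin B → Q → ZMod p) :
    ((‖FS V l al‖ ^ (2 * s) : ℝ) : ℂ) =
      ∑ X : Fin (2 * s) → Fin B → Q, ((∏ r, V (X r) : ℝ) : ℂ) *
        ZMod.stdAddChar (∑ r : Fin (2 * s), (if r.val < s then (1 : ZMod p) else -1) *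
          ip l (val al (X r))) := by
  rw [pow_eq]
  simp only [Fd]
  rw [prod_univ_sum, Fintype.piFinset_univ]
  refine sum_congr rfl fun X _ => ?_
  rw [prod_mul_distrib, char_sum]
  push_cast
  rfl

theorem unpaired {p B n : ℕ} [Fact p.Prime] {Q : Type} [Fintype Q] [DecidableEq Q]
    (l : Fin B → ZMod p) (e : Fin n → ZMod p) (he : ∀ r, e r ≠ 0) (X : Fin n → Fin B → Q)
    (j0 : Fin B) (hj0 : l j0 ≠ 0) (r0 : Fin n) (hr0 : ∀ r', r' ≠ r0 → X r' j0 ≠ X r0 j0) :
    ∑ al : Fin B → Q → ZMod p, ZMod.stdAddChar (∑ r, e r * ip l (val al (X r))) = (0 : ℂ) := by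
  classical
  set c : ZMod p := e r0 * l j0 with hc
  have hc0 : c ≠ 0 := mul_ne_zero (he r0) hj0
  set dl : Fin B → Q → ZMod p := Pi.single j0 (Pi.single (X r0 j0) c⁻¹) with hdl
  have hT : ∀ al : Fin B → Q → ZMod p,
      ∑ r, e r * ip l (val (al + dl) (X r)) = ∑ r, e r * ip l (val al (X r)) + 1 := by
    intro al
    have h1 : ∀ r, ip l (val (al + dl) (X r)) = ip l (val al (X r)) +
        l j0 * (Pi.single (X r0 j0) c⁻¹ : Q → ZMod p) (X r j0) := by
      intro r
      unfold ip H1.LP.val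
      have : ∀ j, l j * (al + dl) j (X r j) = l j * al j (X r j) +
          (if j = j0 then l j0 * (Pi.single (X r0 j0) c⁻¹ : Q → ZMod p) (X r j0) else 0) := by
        intro j
        rw [Pi.add_apply, Pi.add_apply, mul_add]
        congr 1
        by_cases hj : j = j0
        · subst hj
          rw [if_pos rfl, hdl, Pi.single_eq_same]
        · rw [if_neg hj, hdl, Pi.single_eq_of_ne hj]
          simp
      rw [sum_congr rfl fun j _ => this j, sum_add_distrib]
      simp
    have h2 : ∀ r, e r * ip l (val (al + dl) (X r)) = e r * ip l (val al (X r)) +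
        (if r = r0 then 1 else 0) := by
      intro r
      rw [h1 r, mul_add]
      congr 1
      by_cases hr : r = r0
      · subst hr
        rw [if_pos rfl, Pi.single_eq_same, ← mul_assoc, ← hc, mul_inv_cancel₀ hc0]
      · rw [if_neg hr, Pi.single_eq_of_ne (hr0 r hr)]
        simp
    rw [sum_congr rfl fun r _ => h2 r, sum_add_distrib]
    simp
  have h3 : ∑ al : Fin B → Q → ZMod p,
      (ZMod.stdAddChar (∑ r, e r * ip l (val al (X r))) : ℂ) =
      (∑ al : Fin B → Q → ZMod p, (ZMod.stdAddChar (∑ r, e r * ip l (val al (X r))) : ℂ)) *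
        ZMod.stdAddChar (1 : ZMod p) := by
    rw [sum_mul]
    rw [← Equiv.sum_comp (Equiv.addRight dl)]
    refine sum_congr rfl fun al _ => ?_
    rw [Equiv.coe_addRight, hT al, AddChar.map_add_eq_mul]
  have h4 : (ZMod.stdAddChar (1 : ZMod p) : ℂ) ≠ 1 := by
    intro h
    have h5 : (ZMod.stdAddChar (1 : ZMod p) : ℂ) = ZMod.stdAddChar (0 : ZMod p) := by
      rw [h, AddChar.map_zero_eq_one]
    exact one_ne_zero (ZMod.injective_stdAddChar h5)
  have h6 : (∑ al : Fin B → Q → ZMod p,
      (ZMod.stdAddChar (∑ r, e r * ip l (val al (X r))) : ℂ)) *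
        (ZMod.stdAddChar (1 : ZMod p) - 1) = 0 := by
    rw [mul_sub, mul_one, ← h3, sub_self]
  rcases mul_eq_zero.1 h6 with h | h
  · exact h
  · exact absurd (sub_eq_zero.1 h) h4

theorem avg : S_AVG := by
  intro p B s _ Q _ _ V l hV
  have h1 : ((∑ al : Fin B → Q → ZMod p, ‖FS V l al‖ ^ (2 * s) : ℝ) : ℂ) =
      ∑ X : Fin (2 * s) → Fin B → Q, ((∏ r, V (X r) : ℝ) : ℂ) *
        ∑ al : Fin B → Q → ZMod p,
          ZMod.stdAddChar (∑ r : Fin (2 * s), (if r.val < s then (1 : ZMod p) else -1) *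
            ip l (val al (X r))) := by
    rw [Complex.ofReal_sum, sum_congr rfl fun al _ => expand s V l al, sum_comm]
    exact sum_congr rfl fun X _ => (mul_sum _ _ _).symm
  have h2 : ∑ al : Fin B → Q → ZMod p, ‖FS V l al‖ ^ (2 * s) =
      ‖∑ X : Fin (2 * s) → Fin B → Q, ((∏ r, V (X r) : ℝ) : ℂ) *
        ∑ al : Fin B → Q → ZMod p,
          (ZMod.stdAddChar (∑ r : Fin (2 * s), (if r.val < s then (1 : ZMod p) else -1) *
            ip l (val al (X r))) : ℂ)‖ := by
    rw [← h1, Complex.norm_real, Real.norm_of_nonneg]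
    exact sum_nonneg fun al _ => by positivity
  rw [h2, mul_sum]
  refine (norm_sum_le _ _).trans (sum_le_sum fun X _ => ?_)
  have hP : 0 ≤ ∏ r, V (X r) := prod_nonneg fun r _ => hV _
  rw [norm_mul, Complex.norm_real, Real.norm_of_nonneg hP]
  split_ifs with hX
  · rw [mul_comm]
    refine mul_le_mul_of_nonneg_right ?_ hP
    refine (norm_sum_le _ _).trans ?_
    calc ∑ al : Fin B → Q → ZMod p, ‖(ZMod.stdAddChar (∑ r : Fin (2 * s),
          (if r.val < s then (1 : ZMod p) else -1) * ip l (val al (X r))) : ℂ)‖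
        = ∑ al : Fin B → Q → ZMod p, (1 : ℝ) := sum_congr rfl fun al _ => by
          rw [AddChar.norm_apply]
      _ ≤ _ := by simp
  · push Not at hX
    obtain ⟨j, hj, r, hr⟩ := hX
    have hj' : l j ≠ 0 := by simpa [supp] using hj
    have he : ∀ r : Fin (2 * s), (if r.val < s then (1 : ZMod p) else -1) ≠ 0 := by
      intro r
      split_ifs
      · exact one_ne_zero
      · exact neg_ne_zero.2 one_ne_zero
    rw [unpaired l (fun r : Fin (2 * s) => if r.val < s then (1 : ZMod p) else -1) he X j hj' r hr]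
    simp

end Pool.Agent.H4.LP
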